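import Mathlib
import Pool.Agent.Helper85_Leo.Defs

/-!
# Squad LRN, row RK1: Leopoldt's conjecture for number fields of unit rank at most one
-/

set_option autoImplicit false

open NumberField Module Filter Topology
open Pool.Agent.Helper85_Leo

namespace Pool.Agent.LRN.H98

section coords

variable {L : Type} [Field L] [NumberField L]

/-- coordinates of a unit modulo torsion -/
noncomputable def crd (u : (𝓞 L)ˣ) (i : Fin (Units.rank L)) : ℤ :=
  (Units.exist_unique_eq_mul_prod L u).choose.2 i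

theorem crd_spec (u : (𝓞 L)ˣ) : ∃ ζ : Units.torsion L,
    u = ζ * ∏ i, Units.fundSystem L i ^ crd u i :=
  ⟨_, (Units.exist_unique_eq_mul_prod L u).choose_spec.1⟩

theorem crd_eq (u : (𝓞 L)ˣ) (ζ : Units.torsion L) (f : Fin (Units.rank L) → ℤ)
    (h : u = ζ * ∏ i, Units.fundSystem L i ^ f i) : crd u = f := by
  have h1 := (Units.exist_unique_eq_mul_prod L u).choose_spec.2 (ζ, f) h
  funext i
  show (Units.exist_unique_eq_mul_prod L u).choose.2 i = f i
  rw [← h1]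

theorem crd_mul (u v : (𝓞 L)ˣ) (i : Fin (Units.rank L)) : crd (u * v) i = crd u i + crd v i := by
  obtain ⟨ζ, h1⟩ := crd_spec u
  obtain ⟨ξ, h2⟩ := crd_spec v
  have h3 := crd_eq (u * v) (ζ * ξ) (fun i => crd u i + crd v i) (by
    have e : ∏ i, Units.fundSystem L i ^ (crd u i + crd v i)
        = (∏ i, Units.fundSystem L i ^ crd u i) * ∏ i, Units.fundSystem L i ^ crd v i := by
      rw [← Finset.prod_mul_distrib]
      exact Finset.prod_congr rfl fun i _ => zpow_add _ _ _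
    rw [e]
    have e2 : u * v = (ζ * ∏ i, Units.fundSystem L i ^ crd u i) *
          (ξ * ∏ i, Units.fundSystem L i ^ crd v i) := by rw [← h1, ← h2]
    rw [e2]
    push_cast
    exact mul_mul_mul_comm _ _ _ _)
  rw [h3]

theorem crd_one (i : Fin (Units.rank L)) : crd (1 : (𝓞 L)ˣ) i = 0 := by
  have := crd_mul (1 : (𝓞 L)ˣ) 1 i
  rw [mul_one] at this
  omega

noncomputable def crdHom (i : Fin (Units.rank L)) : (𝓞 L)ˣ →* Multiplicative ℤ where
  toFun u := Multiplicative.ofAdd (crd u i)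
  map_one' := by rw [crd_one]; rfl
  map_mul' := by intro u v; rw [crd_mul]; rfl

theorem crd_zpow (u : (𝓞 L)ˣ) (k : ℤ) (i : Fin (Units.rank L)) : crd (u ^ k) i = k * crd u i := by
  have h := map_zpow (crdHom i) u k
  have h2 := congrArg Multiplicative.toAdd h
  have h3 : Multiplicative.toAdd (crdHom i u ^ k) = k * crd u i := by
    rw [toAdd_zpow, smul_eq_mul]
    rfl
  rw [← h3, ← h2]
  rfl

theorem crd_torsion (u : (𝓞 L)ˣ) (h : ∀ i, crd u i = 0) : ∃ k : ℕ, 0 < k ∧ u ^ k = 1 := by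
  obtain ⟨ζ, h1⟩ := crd_spec u
  have h2 : ∏ i, Units.fundSystem L i ^ crd u i = 1 := by
    apply Finset.prod_eq_one
    intro i _
    rw [h i, zpow_zero]
  rw [h2, mul_one] at h1
  have h4 : u ∈ Units.torsion L := by rw [h1]; exact ζ.2
  have h5 : IsOfFinOrder u := h4
  exact isOfFinOrder_iff_pow_eq_one.1 h5

/-- two units are dependent if the rank is at most one -/
theorem exists_rel (hr : Units.rank L ≤ 1) (u v : (𝓞 L)ˣ) :
    ∃ s t : ℤ, (s ≠ 0 ∨ t ≠ 0) ∧ u ^ s * v ^ t = 1 := by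
  have h1 : ∃ s t : ℤ, (s ≠ 0 ∨ t ≠ 0) ∧ ∀ i, s * crd u i + t * crd v i = 0 := by
    by_cases h0 : ∀ i, crd u i = 0
    · exact ⟨1, 0, Or.inl one_ne_zero, fun i => by rw [h0 i]; ring⟩
    · push Not at h0
      obtain ⟨i₀, hi₀⟩ := h0
      refine ⟨crd v i₀, -crd u i₀, Or.inr (by simpa using hi₀), fun i => ?_⟩
      have : i = i₀ := by
        apply Fin.ext
        have := i.2
        have := i₀.2
        omega
      rw [this]
      ring
  obtain ⟨s, t, hst, h2⟩ := h1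
  obtain ⟨k, hk, h3⟩ := crd_torsion (u ^ s * v ^ t) (fun i => by
    rw [crd_mul, crd_zpow, crd_zpow]
    exact h2 i)
  refine ⟨k * s, k * t, ?_, ?_⟩
  · rcases hst with h | h
    · exact Or.inl (mul_ne_zero (by exact_mod_cast hk.ne') h)
    · exact Or.inr (mul_ne_zero (by exact_mod_cast hk.ne') h)
  · rw [mul_comm (k : ℤ) s, mul_comm (k : ℤ) t, zpow_mul, zpow_mul, ← mul_zpow, zpow_natCast, h3]

theorem le_one (hr : Units.rank L ≤ 1) {n : ℕ} (ε : Fin n → (𝓞 L)ˣ)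
    (hind : ∀ c : Fin n → ℤ, ∏ i, ε i ^ c i = 1 → c = 0) : n ≤ 1 := by
  by_contra hn
  push Not at hn
  obtain ⟨s, t, hst, h⟩ := exists_rel hr (ε ⟨0, by omega⟩) (ε ⟨1, by omega⟩)
  have h2 := hind (fun i => if i = ⟨0, by omega⟩ then s else if i = ⟨1, by omega⟩ then t else 0) (by
    rw [Finset.prod_eq_mul (⟨0, by omega⟩ : Fin n) (⟨1, by omega⟩ : Fin n)]
    · simpa using h
    · simp
    · intro i _ hi
      rw [if_neg hi.1, if_neg hi.2, zpow_zero]
    · intro h; exact absurd (Finset.mem_univ _) h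
    · intro h; exact absurd (Finset.mem_univ _) h)
  have hs : s = 0 := by simpa using congrFun h2 ⟨0, by omega⟩
  have ht : t = 0 := by simpa [Fin.ext_iff] using congrFun h2 ⟨1, by omega⟩
  rcases hst with h | h
  · exact h hs
  · exact h ht

variable {p : ℕ} [hp : Fact p.Prime]

omit [NumberField L] in
theorem frob (x : 𝓞 L) (j : ℕ) :
    ((p : ℕ) : 𝓞 L) ∣ x ^ p ^ j - ((x - 1) ^ p ^ j + 1) := by
  obtain ⟨r, hr⟩ := exists_add_pow_prime_pow_eq hp.out (x - 1) 1 j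
  rw [sub_add_cancel, one_pow] at hr
  exact ⟨(x - 1) * r, by rw [hr]; ring⟩

omit [NumberField L] in
theorem pow_dvd (x : 𝓞 L) (hx : x - 1 ∈ (Ideal.span {((p : ℕ) : 𝓞 L)}).radical) (N : ℕ) :
    ∃ M : ℕ, ((p : ℕ) : 𝓞 L) ^ N ∣ x ^ p ^ M - 1 := by
  obtain ⟨j, hj⟩ := hx
  rw [Ideal.mem_span_singleton] at hj
  have h1 : ((p : ℕ) : 𝓞 L) ∣ x ^ p ^ j - 1 := by
    have h2 : x ^ p ^ j - 1 = (x ^ p ^ j - ((x - 1) ^ p ^ j + 1)) + (x - 1) ^ p ^ j := by ring
    rw [h2]
    exact dvd_add (frob x j)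
      (hj.trans (pow_dvd_pow _ (Nat.lt_pow_self hp.out.one_lt).le))
  refine ⟨j + N, ?_⟩
  have h3 := dvd_sub_pow_of_dvd_sub (p := p) (a := x ^ p ^ j) (b := 1) (by simpa using h1) N
  rw [one_pow, ← pow_mul, ← pow_add] at h3
  exact (pow_dvd_pow _ (Nat.le_succ N)).trans h3

omit hp in
theorem eq_zero_of_dvd (h1p : 1 < p) (x : 𝓞 L) (hx : ∀ N : ℕ, ((p : ℕ) : 𝓞 L) ^ N ∣ x) :
    x = 0 := by
  by_contra hne
  have h1 : ¬ IsUnit ((p : ℕ) : 𝓞 L) := by
    intro h
    have h2 : IsUnit (Algebra.norm ℤ ((p : ℕ) : 𝓞 L)) := h.map _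
    have h3 : Algebra.norm ℤ ((p : ℕ) : 𝓞 L) = (p : ℤ) ^ finrank ℤ (𝓞 L) := by
      have := Algebra.norm_algebraMap (R := ℤ) (S := 𝓞 L) (p : ℤ)
      simpa using this
    rw [h3, Int.isUnit_iff_natAbs_eq, Int.natAbs_pow] at h2
    have h4 : 0 < finrank ℤ (𝓞 L) := by
      rw [RingOfIntegers.rank]
      exact finrank_pos
    have h5 : p ^ finrank ℤ (𝓞 L) = 1 := by simpa using h2
    have h6 := Nat.one_lt_pow h4.ne' h1p
    omega
  obtain ⟨n, hn⟩ := FiniteMultiplicity.of_not_isUnit h1 hne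
  exact hn (hx _)

/-- the case of one unit -/
theorem one_unit (ε : (𝓞 L)ˣ) (h1 : ((ε : 𝓞 L) - 1) ∈ (Ideal.span {((p : ℕ) : 𝓞 L)}).radical)
    (hind : ∀ c : ℤ, ε ^ c = 1 → c = 0) (a : PadicInt p) (m : ℕ → ℤ)
    (hm : Tendsto (fun k => ((m k : ℤ) : PadicInt p)) atTop (𝓝 a))
    (hd : ∀ N : ℕ, ∀ᶠ k in atTop, ((p : ℕ) : 𝓞 L) ^ N ∣ (((ε ^ m k : (𝓞 L)ˣ) : 𝓞 L) - 1)) :
    a = 0 := by
  by_contra ha
  -- the valuation of the exponents
  obtain ⟨v, hv⟩ : ∃ v : ℕ, ∀ᶠ k in atTop, ¬ ((p : ℤ) ^ (v + 1) ∣ m k) ∧ (p : ℤ) ^ v ∣ m k := by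
    refine ⟨a.valuation, ?_⟩
    have hna : 0 < ‖a‖ := norm_pos_iff.2 ha
    have h2 : ∀ᶠ k in atTop, ‖((m k : ℤ) : PadicInt p) - a‖ < ‖a‖ := by
      have h3 := (hm.sub_const a).norm
      rw [sub_self, norm_zero] at h3
      exact h3.eventually (gt_mem_nhds hna)
    filter_upwards [h2] with k hk
    have h4 : ‖((m k : ℤ) : PadicInt p)‖ = ‖a‖ := by
      have h5 := PadicInt.norm_add_eq_max_of_ne (q := ((m k : ℤ) : PadicInt p) - a) (r := a) hk.ne
      rw [sub_add_cancel, max_eq_right hk.le] at h5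
      exact h5
    rw [PadicInt.norm_eq_zpow_neg_valuation ha] at h4
    constructor
    · intro h5
      have h6 := (PadicInt.norm_int_le_pow_iff_dvd (p := p) (k := m k) (n := a.valuation + 1)).2
        (by exact_mod_cast h5)
      rw [h4] at h6
      have h7 := (zpow_le_zpow_iff_right₀ (by exact_mod_cast hp.out.one_lt :
        (1 : ℝ) < (p : ℕ))).1 h6
      push_cast at h7
      omega
    · have h6 := (PadicInt.norm_int_le_pow_iff_dvd (p := p) (k := m k) (n := a.valuation)).1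
        h4.le
      exact_mod_cast h6
  -- a power of the unit is one
  have h3 : ((ε ^ p ^ v : (𝓞 L)ˣ) : 𝓞 L) - 1 = 0 := by
    apply eq_zero_of_dvd hp.out.one_lt
    intro N
    obtain ⟨k, ⟨hk1, c, hk2⟩, hk3⟩ := (hv.and (hd N)).exists
    obtain ⟨M, hM⟩ := pow_dvd (ε : 𝓞 L) h1 N
    let I := Ideal.span {((p : ℕ) : 𝓞 L) ^ N}
    let f : (𝓞 L)ˣ →* (𝓞 L ⧸ I)ˣ := Units.map (Ideal.Quotient.mk I : 𝓞 L →* 𝓞 L ⧸ I)
    have hf : ∀ u : (𝓞 L)ˣ, f u = 1 ↔ ((p : ℕ) : 𝓞 L) ^ N ∣ ((u : 𝓞 L) - 1) := by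
      intro u
      rw [← Ideal.mem_span_singleton, ← Ideal.Quotient.eq_zero_iff_mem, map_sub, map_one,
        sub_eq_zero, Units.ext_iff]
      rfl
    rw [← hf]
    have h4 : (f (ε ^ p ^ v)) ^ c.natAbs = 1 := by
      have h5 : f (ε ^ p ^ v) ^ c = 1 := by
        rw [← map_zpow, ← zpow_natCast, ← zpow_mul]
        have : ((p ^ v : ℕ) : ℤ) * c = m k := by rw [hk2]; push_cast; ring
        rw [this]
        exact (hf _).2 hk3
      rcases Int.natAbs_eq c with hc | hc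
      · rw [hc, zpow_natCast] at h5
        exact h5
      · rw [hc, zpow_neg, zpow_natCast, inv_eq_one] at h5
        exact h5
    have h6 : (f (ε ^ p ^ v)) ^ p ^ M = 1 := by
      rw [← map_pow, ← pow_mul, mul_comm, pow_mul, map_pow]
      have : f (ε ^ p ^ M) = 1 := (hf _).2 (by push_cast; exact hM)
      rw [this, one_pow]
    have h7 := pow_gcd_eq_one.2 ⟨h4, h6⟩
    have h8 : Nat.gcd c.natAbs (p ^ M) = 1 := by
      apply Nat.Coprime.pow_right
      rw [Nat.coprime_comm, Nat.Prime.coprime_iff_not_dvd hp.out]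
      intro h9
      apply hk1
      rw [hk2, pow_succ]
      exact mul_dvd_mul_left _ (Int.natCast_dvd.2 h9)
    rw [h8, pow_one] at h7
    exact h7
  have h4 : ε ^ (p ^ v) = 1 := by
    apply Units.ext
    rw [Units.val_one]
    exact sub_eq_zero.1 h3
  have h5 := hind ((p ^ v : ℕ) : ℤ) (by rw [zpow_natCast]; exact h4)
  have h6 : (p ^ v : ℕ) ≠ 0 := pow_ne_zero _ hp.out.ne_zero
  exact h6 (by exact_mod_cast h5)

end coords

/-- **RK1**: Leopoldt's conjecture for number fields of unit rank at most one. -/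
theorem rk1 (F : Type) [Field F] [NumberField F] (hr : Units.rank F ≤ 1) (p : ℕ)
    [Fact p.Prime] : LeopoldtAt F p := by
  intro n ε h1 hind a m hm hd
  have hn := le_one hr ε hind
  rcases Nat.le_one_iff_eq_zero_or_eq_one.1 hn with h0 | h0
  · subst h0
    funext i
    exact i.elim0
  · subst h0
    funext i
    have hi : i = 0 := Subsingleton.elim _ _
    rw [hi]
    refine one_unit (ε 0) (h1 0) ?_ (a 0) (fun k => m k 0) (hm 0) ?_
    · intro c hc
      have := hind (fun _ => c) (by simpa using hc)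
      exact congrFun this 0
    · intro N
      filter_upwards [hd N] with k hk
      simpa using hk

end Pool.Agent.LRN.H98
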