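import Pool.Agent.LRN.Defs
import Pool.Agent.Helper49_LRG.POL
import Pool.Agent.Helper98_LRN.RK1

/-!
# Squad LRN, row FFX: finitely many fields with a full system of short units
-/

set_option autoImplicit false

open NumberField Module
open Pool.Agent.LRG

namespace Pool.Agent.LRN.H98

theorem crd_prod {L : Type} [Field L] [NumberField L] {n : ℕ} (ε : Fin n → (𝓞 L)ˣ)
    (c : Fin n → ℤ) (i : Fin (Units.rank L)) :
    crd (∏ j, ε j ^ c j) i = ∑ j, c j * crd (ε j) i := by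
  have h := map_prod (crdHom i) (fun j => ε j ^ c j) Finset.univ
  have h2 := congrArg Multiplicative.toAdd h
  rw [toAdd_prod] at h2
  have h3 : Multiplicative.toAdd (crdHom i (∏ j, ε j ^ c j)) = crd (∏ j, ε j ^ c j) i := rfl
  rw [h3] at h2
  rw [h2]
  refine Finset.sum_congr rfl fun j _ => ?_
  rw [← crd_zpow]
  rfl

/-- The number of independent units is at most the unit rank. -/
theorem indep_le_rank {L : Type} [Field L] [NumberField L] {r : ℕ} (u : Fin r → (𝓞 L)ˣ)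
    (h : Indep u) : r ≤ Units.rank L := by
  have hli : LinearIndependent ℤ (fun j => (crd (u j) : Fin (Units.rank L) → ℤ)) := by
    rw [Fintype.linearIndependent_iff]
    intro g hg
    obtain ⟨k, hk, h1⟩ := crd_torsion (∏ j, u j ^ g j) (fun i => by
      rw [crd_prod]
      have h2 := congrFun hg i
      rw [Finset.sum_apply] at h2
      simpa using h2)
    have h3 : ∏ j, u j ^ ((k : ℤ) * g j) = 1 := by
      rw [← h1, ← Finset.prod_pow]
      refine Finset.prod_congr rfl fun j _ => ?_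
      rw [mul_comm, zpow_mul, zpow_natCast]
    have h4 := h (fun j => (k : ℤ) * g j) h3
    intro j
    have h5 := congrFun h4 j
    have h6 : (k : ℤ) * g j = 0 := h5
    rcases mul_eq_zero.1 h6 with h7 | h7
    · exfalso
      exact hk.ne' (by exact_mod_cast h7)
    · exact h7
  have h2 := hli.fintype_card_le_finrank
  simpa using h2

/-- A unit which lies in a subfield is a unit of the subfield. -/
theorem exists_unit {K : Type} [Field K] [NumberField K] (E : IntermediateField ℚ K)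
    (u : (𝓞 K)ˣ) (hu : ((u : 𝓞 K) : K) ∈ E) :
    ∃ v : (𝓞 E)ˣ, (((v : 𝓞 E) : E) : K) = ((u : 𝓞 K) : K) := by
  have h1 : ((u : 𝓞 K) : K) * (((u⁻¹ : (𝓞 K)ˣ) : 𝓞 K) : K) = 1 := by
    have h2 : (u : 𝓞 K) * ((u⁻¹ : (𝓞 K)ˣ) : 𝓞 K) = 1 := Units.mul_inv _
    have h3 := congrArg (fun t : 𝓞 K => (t : K)) h2
    exact h3
  have h2 : (((u⁻¹ : (𝓞 K)ˣ) : 𝓞 K) : K) = ((u : 𝓞 K) : K)⁻¹ := by
    exact eq_inv_of_mul_eq_one_right h1
  have hmem : (((u⁻¹ : (𝓞 K)ˣ) : 𝓞 K) : K) ∈ E := by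
    rw [h2]
    exact E.inv_mem hu
  have hx : IsIntegral ℤ (⟨((u : 𝓞 K) : K), hu⟩ : E) := by
    have h3 : IsIntegral ℤ (algebraMap E K ⟨((u : 𝓞 K) : K), hu⟩) :=
      RingOfIntegers.isIntegral_coe _
    exact (isIntegral_algebraMap_iff (algebraMap E K).injective).mp h3
  have hy : IsIntegral ℤ (⟨(((u⁻¹ : (𝓞 K)ˣ) : 𝓞 K) : K), hmem⟩ : E) := by
    have h3 : IsIntegral ℤ (algebraMap E K ⟨(((u⁻¹ : (𝓞 K)ˣ) : 𝓞 K) : K), hmem⟩) :=
      RingOfIntegers.isIntegral_coe _
    exact (isIntegral_algebraMap_iff (algebraMap E K).injective).mp h3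
  obtain ⟨x, hx'⟩ : ∃ x : 𝓞 E, ((x : E) : K) = ((u : 𝓞 K) : K) := ⟨⟨_, hx⟩, rfl⟩
  obtain ⟨y, hy'⟩ : ∃ y : 𝓞 E, ((y : E) : K) = (((u⁻¹ : (𝓞 K)ˣ) : 𝓞 K) : K) := ⟨⟨_, hy⟩, rfl⟩
  have e1 : x * y = 1 := by
    apply RingOfIntegers.ext
    apply Subtype.ext
    have e2 : ((x : E) : K) * ((y : E) : K) = 1 := by
      rw [hx', hy']
      exact h1
    exact e2
  exact ⟨⟨x, y, e1, by rw [mul_comm]; exact e1⟩, hx'⟩

theorem indep_sub {K : Type} [Field K] [NumberField K] (E : IntermediateField ℚ K) {r : ℕ}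
    (u : Fin r → (𝓞 K)ˣ) (v : Fin r → (𝓞 E)ˣ) (hu : Indep u)
    (hv : ∀ i, (((v i : 𝓞 E) : E) : K) = ((u i : 𝓞 K) : K)) : Indep v := by
  intro c hc
  apply hu
  let φ : (𝓞 E)ˣ →* Kˣ := Units.map
    (((algebraMap E K).comp (algebraMap (𝓞 E) E) : 𝓞 E →+* K) : 𝓞 E →* K)
  let ψ : (𝓞 K)ˣ →* Kˣ := Units.map ((algebraMap (𝓞 K) K : 𝓞 K →+* K) : 𝓞 K →* K)
  have hψ : Function.Injective ψ := by
    intro a b hab
    apply Units.ext
    apply RingOfIntegers.ext
    exact congrArg (fun t : Kˣ => (t : K)) hab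
  have h1 : ∀ i, φ (v i) = ψ (u i) := fun i => Units.ext (hv i)
  apply hψ
  rw [map_one, map_prod]
  have h2 := congrArg φ hc
  rw [map_one, map_prod] at h2
  rw [← h2]
  refine Finset.prod_congr rfl fun i _ => ?_
  rw [map_zpow, map_zpow, h1]

/-- A full system of independent units generates a non-CM field. -/
theorem adjoin_top {K : Type} [Field K] [NumberField K]
    (hE : ∀ E : IntermediateField ℚ K, E ≠ ⊤ → Units.rank E < Units.rank K)
    (u : Fin (Units.rank K) → (𝓞 K)ˣ) (hu : Indep u) :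
    IntermediateField.adjoin ℚ (Set.range fun i => ((u i : 𝓞 K) : K)) = ⊤ := by
  by_contra hne
  have hmem : ∀ i, ((u i : 𝓞 K) : K) ∈
      IntermediateField.adjoin ℚ (Set.range fun i => ((u i : 𝓞 K) : K)) :=
    fun i => IntermediateField.subset_adjoin ℚ _ (Set.mem_range_self i)
  choose v hv using fun i => exists_unit _ (u i) (hmem i)
  have h1 := indep_le_rank v (indep_sub _ u v hu hv)
  have h2 := hE _ hne
  omega

/-- **FFX** -/
theorem ffx : FfxStmt := by
  intro r₁ r₂ X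
  obtain ⟨A, hA⟩ : ∃ A : Set ℂ, A = ⋃ m ∈ Finset.Icc 1 (r₁ + 2 * r₂), D.AlgInt m (max X 1) :=
    ⟨_, rfl⟩
  have hfin : A.Finite := by
    rw [hA]
    refine Set.Finite.biUnion (Finset.finite_toSet _) fun m hm => ?_
    exact (H49.pol m (max X 1) (Finset.mem_Icc.1 hm).1 (le_max_right _ _)).1
  refine (hfin.finite_subsets.image (fun S => IntermediateField.adjoin ℚ S)).subset ?_
  rintro K ⟨_, h1, h2, hE, u, hu, hb⟩
  refine ⟨Set.range fun i => (((u i : 𝓞 K) : K) : ℂ), ?_, ?_⟩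
  · rintro _ ⟨i, rfl⟩
    have hyint : IsIntegral ℤ ((u i : 𝓞 K) : K) := RingOfIntegers.isIntegral_coe _
    have hmin : minpoly ℚ ((((u i : 𝓞 K) : K)) : ℂ) = minpoly ℚ ((u i : 𝓞 K) : K) :=
      minpoly.algebraMap_eq (algebraMap K ℂ).injective _
    have hint : IsIntegral ℤ ((((u i : 𝓞 K) : K)) : ℂ) := hyint.algebraMap
    have hQ : IsIntegral ℚ ((u i : 𝓞 K) : K) := hyint.tower_top
    rw [hA, Set.mem_iUnion₂]
    refine ⟨(minpoly ℚ ((u i : 𝓞 K) : K)).natDegree, ?_, hint, by rw [hmin], ?_⟩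
    · rw [Finset.mem_Icc]
      refine ⟨minpoly.natDegree_pos hQ, ?_⟩
      rw [← h1, ← h2, InfinitePlace.card_add_two_mul_card_eq_rank]
      exact minpoly.natDegree_le _
    · intro z hz
      rw [hmin] at hz
      have hr := NumberField.Embeddings.range_eval_eq_rootSet_minpoly K ℂ ((u i : 𝓞 K) : K)
      have hmem : z ∈ (minpoly ℚ ((u i : 𝓞 K) : K)).rootSet ℂ := by
        rw [Polynomial.mem_rootSet]
        exact ⟨minpoly.ne_zero hQ, hz⟩
      rw [← hr] at hmem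
      obtain ⟨σ, hσ⟩ := hmem
      rw [← hσ]
      exact (hb i σ).trans (le_max_left _ _)
  · have htop := adjoin_top hE u hu
    have h3 : ∀ (A B : Algebra ℚ K), A = B →
        @IntermediateField.adjoin ℚ _ K _ A (Set.range fun i => ((u i : 𝓞 K) : K)) = ⊤ →
        @IntermediateField.adjoin ℚ _ K _ B (Set.range fun i => ((u i : 𝓞 K) : K)) = ⊤ := by
      intro A B h h'
      subst h
      exact h'
    have h4 := IntermediateField.lift_adjoin (F := ℚ) (E := ℂ) K (Set.range fun i => ((u i : 𝓞 K) : K))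
    rw [h3 _ _ (Subsingleton.elim _ _) htop, IntermediateField.lift_top] at h4
    refine Eq.trans ?_ h4.symm
    rw [← Set.range_comp]
    rfl

end Pool.Agent.LRN.H98
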