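import Pool.Agent.LRN.StmtsC
import Pool.Agent.Helper98_LRN.FFX
import Pool.Agent.Helper74_LRN.DIR

/-!
# Squad LRN, row FLO: many primitive fields with short units and small regulator
-/

set_option autoImplicit false

open NumberField
open Pool.Agent.LRG

namespace Pool.Agent.LRN.H98

/-- Proper subfields of a primitive field have unit rank `0`. -/
theorem prim_rank {K : Type} [Field K] [NumberField K] (hp : Primitive K) (hr : 0 < Units.rank K)
    (E : IntermediateField ℚ K) (hE : E ≠ ⊤) : Units.rank E < Units.rank K := by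
  rcases hp E with h | h
  · subst h
    have h1 := H74.rank_le (⊥ : IntermediateField ℚ K)
    have h2 : Module.finrank ℚ (⊥ : IntermediateField ℚ K) = 1 := IntermediateField.finrank_bot
    omega
  · exact absurd h hE

theorem flo (lwu : LwuStmt) (rgs : RgsStmt) (hffx : FfxStmt) : FloStmt := by
  intro r₁ r₂ h3
  obtain ⟨c, X₀, hc, hlwu⟩ := lwu r₁ r₂ h3
  obtain ⟨C, hC, hrgs⟩ := rgs (r₁ + 2 * r₂)
  obtain ⟨k, hk⟩ := exists_nat_ge (max C 1)
  have hk1 : (1 : ℝ) ≤ k := (le_max_right _ _).trans hk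
  have hkC : C ≤ k := (le_max_left _ _).trans hk
  have hk0 : (0 : ℝ) < k := by linarith
  have hkne : k ≠ 0 := by
    rintro rfl
    simp at hk0
  refine ⟨c / k, (max X₀ 1) ^ k, by positivity, fun X hX => ?_⟩
  have hm1 : 1 ≤ max X₀ 1 := le_max_right _ _
  have hX1 : 1 ≤ X := (one_le_pow₀ hm1).trans hX
  have hX0 : 0 ≤ X := by linarith
  obtain ⟨Y, hY⟩ : ∃ Y : ℝ, Y = X ^ (1 / (k : ℝ)) := ⟨_, rfl⟩
  have hYk : Y ^ k = X := by
    rw [hY, one_div, Real.rpow_inv_natCast_pow hX0 hkne]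
  have hY0 : 0 ≤ Y := by
    rw [hY]
    exact Real.rpow_nonneg hX0 _
  have hYm : max X₀ 1 ≤ Y := by
    by_contra hlt
    push Not at hlt
    have h1 := pow_lt_pow_left₀ hlt hY0 hkne
    rw [hYk] at h1
    linarith
  have hY1 : 1 ≤ Y := hm1.trans hYm
  have hYX : Y ≤ X := by
    rw [← hYk]
    exact le_self_pow₀ hY1 hkne
  obtain ⟨S, hS1, hS2⟩ := hlwu Y ((le_max_left _ _).trans hYm)
  have hlog : Real.log X = k * Real.log Y := by
    rw [← hYk, Real.log_pow]
  have hlogY : 0 ≤ Real.log Y := Real.log_nonneg hY1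
  have hcard : X ^ (c / k) ≤ (S.card : ℝ) := by
    refine le_trans (le_of_eq ?_) hS1
    rw [hY, ← Real.rpow_mul hX0]
    congr 1
    ring
  refine hcard.trans ?_
  rw [← Set.ncard_coe_finset]
  have hfin : {K | K ∈ SizeFlds r₁ r₂ X ∧ (∀ E : IntermediateField ℚ K, E = ⊥ ∨ E = ⊤) ∧
      ∃ _ : NumberField K, Units.regulator K ≤ Real.log X ^ (r₁ + r₂ - 1)}.Finite :=
    (hffx r₁ r₂ X).subset fun K hK => hK.1
  have hsub : (S : Set (IntermediateField ℚ ℂ)) ⊆
      {K | K ∈ SizeFlds r₁ r₂ X ∧ (∀ E : IntermediateField ℚ K, E = ⊥ ∨ E = ⊤) ∧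
      ∃ _ : NumberField K, Units.regulator K ≤ Real.log X ^ (r₁ + r₂ - 1)} := by
    intro K hK
    obtain ⟨inst, k1, k2, hp, hu⟩ := hS2 K hK
    have hrk : Units.rank K = r₁ + r₂ - 1 := by
      rw [Units.rank, InfinitePlace.card_eq_nrRealPlaces_add_nrComplexPlaces, k1, k2]
    have hd : Module.finrank ℚ K = r₁ + 2 * r₂ := by
      rw [← InfinitePlace.card_add_two_mul_card_eq_rank K, k1, k2]
    rw [← hrk] at hu
    obtain ⟨u, hu, hb⟩ := hu
    have hreg := hrgs K Y u hd hY1 hu hb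
    have hrpos : 0 < Units.rank K := by omega
    refine ⟨⟨inst, k1, k2, fun E hE => prim_rank hp hrpos E hE, u, hu,
      fun i σ => (hb i σ).trans hYX⟩, ?_, inst, ?_⟩
    · intro E
      exact hp E
    · refine hreg.trans ?_
      rw [← hrk, hlog, mul_pow]
      refine mul_le_mul_of_nonneg_right (hkC.trans ?_) (pow_nonneg hlogY _)
      exact le_self_pow₀ hk1 hrpos.ne'
  exact_mod_cast Set.ncard_le_ncard hsub hfin

end Pool.Agent.LRN.H98
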