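import Pool.Agent.LRN.Defs
import Pool.Agent.Helper98_LRN.RK1

/-!
# Squad LRN, row RK1 in the form of `LRN/Defs.lean`
-/

set_option autoImplicit false

namespace Pool.Agent.LRN.H98

/-- **RK1** -/
theorem rk1Stmt : Rk1Stmt := fun p _ K _ _ h => rk1 K h p

end Pool.Agent.LRN.H98
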