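import Pool.Agent.LRN.Stmts
import Pool.Agent.Helper98_LRN.FFX

/-!
# Squad LRN, row UNW: fields in which every unit of infinite order generates the field
-/

set_option autoImplicit false

open NumberField Module
open Pool.Agent.Helper85_Leo (LeopoldtAt)
open Pool.Agent.LRG

namespace Pool.Agent.LRN.H98

/-- A fundamental unit has infinite order. -/
theorem fund_inf {L : Type} [Field L] [NumberField L] (i : Fin (Units.rank L)) :
    ¬ IsOfFinOrder (Units.fundSystem L i) := by
  intro h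
  have h1 : Units.fundSystem L i ∈ Units.torsion L := h
  have h2 := crd_eq (Units.fundSystem L i) ⟨_, h1⟩ 0 (by simp)
  have h3 := crd_eq (Units.fundSystem L i) 1 (Pi.single i 1) (by
    rw [Finset.prod_eq_single i]
    · simp
    · intro j _ hj
      rw [Pi.single_eq_of_ne hj, zpow_zero]
    · intro hi
      exact absurd (Finset.mem_univ i) hi)
  rw [h2] at h3
  have h4 := congrFun h3 i
  rw [Pi.single_eq_same] at h4
  exact zero_ne_one h4

/-- The image of a unit of a subfield. -/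
theorem exists_image {K : Type} [Field K] [NumberField K] (E : IntermediateField ℚ K)
    (v : (𝓞 E)ˣ) : ∃ u : (𝓞 K)ˣ, ((u : 𝓞 K) : K) = (((v : 𝓞 E) : E) : K) ∧
      (IsOfFinOrder u → IsOfFinOrder v) := by
  refine ⟨Units.map (algebraMap (𝓞 E) (𝓞 K) : 𝓞 E →* 𝓞 K) v, rfl, fun h => ?_⟩
  rw [isOfFinOrder_iff_pow_eq_one] at h ⊢
  obtain ⟨n, hn, h1⟩ := h
  refine ⟨n, hn, ?_⟩
  apply Units.ext
  apply RingOfIntegers.ext
  apply Subtype.ext
  have h2 := congrArg (fun t : (𝓞 K)ˣ => ((t : 𝓞 K) : K)) h1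
  exact h2

theorem sub_rank {K : Type} [Field K] [NumberField K] (hK : UGen K) (E : IntermediateField ℚ K)
    (hE : E ≠ ⊤) : Units.rank E = 0 := by
  by_contra h0
  obtain ⟨u, hu, hfin⟩ := exists_image E (Units.fundSystem E ⟨0, Nat.pos_of_ne_zero h0⟩)
  have h1 := hK u (fun h => fund_inf _ (hfin h))
  apply hE
  rw [← top_le_iff, ← h1, IntermediateField.adjoin_le_iff, Set.singleton_subset_iff, hu]
  exact SetLike.coe_mem _

theorem all_new {K : Type} [Field K] [NumberField K] (hK : UGen K) (v : (𝓞 K)ˣ) : IsNew v := by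
  intro E hE
  have hr := sub_rank hK E hE
  obtain ⟨k, hk, h⟩ := crd_torsion (Units.map (RingOfIntegers.norm E : 𝓞 K →* 𝓞 E) v) (fun i => by
    have := i.2
    omega)
  refine ⟨k, hk, ?_⟩
  have h2 := congrArg (fun t : (𝓞 E)ˣ => ((t : 𝓞 E) : E)) h
  exact h2

theorem max_new {K : Type} [Field K] [NumberField K] (hK : UGen K) {r : ℕ}
    (u : Fin r → (𝓞 K)ˣ) (hr : Units.rank K = r) (hu : Indep u) : MaxNew u := by
  refine ⟨fun i => all_new hK _, hu, fun v _ => ?_⟩
  have h1 : ¬ Indep (Fin.cons v u : Fin (r + 1) → (𝓞 K)ˣ) := by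
    intro h
    have h2 := indep_le_rank _ h
    omega
  unfold Indep at h1
  rw [not_forall] at h1
  obtain ⟨c, hc⟩ := h1
  rw [Classical.not_imp] at hc
  obtain ⟨h2, h3⟩ := hc
  rw [Fin.prod_univ_succ] at h2
  simp only [Fin.cons_zero, Fin.cons_succ] at h2
  have h0 : c 0 ≠ 0 := by
    intro h0
    apply h3
    rw [h0, zpow_zero, one_mul] at h2
    have h4 := hu (fun i => c i.succ) h2
    funext i
    refine Fin.cases h0 (fun j => ?_) i
    exact congrFun h4 j
  rcases lt_or_gt_of_ne h0 with h | h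
  · obtain ⟨N, hN⟩ := Int.eq_ofNat_of_zero_le (a := - c 0) (by omega)
    refine ⟨N, fun i => c i.succ, by omega, ?_⟩
    rw [← zpow_natCast, ← hN, zpow_neg]
    exact inv_eq_of_mul_eq_one_right h2
  · obtain ⟨N, hN⟩ := Int.eq_ofNat_of_zero_le (a := c 0) (by omega)
    refine ⟨N, fun i => - c i.succ, by omega, ?_⟩
    rw [← zpow_natCast, ← hN]
    simp only [zpow_neg, Finset.prod_inv_distrib]
    exact eq_inv_of_mul_eq_one_left h2

/-- **UNW** -/
theorem unw : UnwStmt := by
  intro K _ _ hK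
  refine ⟨fun E hE => sub_rank hK E hE, fun v => all_new hK v,
    fun r u hr hu => max_new hK u hr hu, fun p _ hL => ⟨hL, fun E hE => ?_⟩⟩
  exact rk1 E (by rw [sub_rank hK E hE]; exact zero_le_one) p

end Pool.Agent.LRN.H98
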