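import Pool.Agent.LRN.Stmts
import Pool.Agent.Helper77_LRG.FIN
import Pool.Agent.Helper38_LRG.UPR

/-!
# Squad LRN, row URE: the order by the regulator
-/

set_option autoImplicit false

open Polynomial NumberField
open Pool.Agent.Helper85_Leo (LeopoldtAt)
open Pool.Agent.LRG

namespace Pool.Agent.LRN.H98

theorem ureg_fin (hone : OneConcl) (hU : UnwStmt) (hreg : RegConcl) (r₁ r₂ : ℕ)
    (h3 : 3 ≤ r₁ + r₂) (T : ℝ) : (UReg r₁ r₂ T).Finite := by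
  have hr : 0 < r₁ + r₂ - 1 := by omega
  have hn : 1 < r₁ + 2 * r₂ := by omega
  obtain ⟨H, hH, hF⟩ := hreg (r₁ + 2 * r₂) (r₁ + r₂ - 1) hr hn 1 one_pos
  obtain ⟨C, hC⟩ := hone (r₁ + 2 * r₂) hn
  have hT1 : (1 : ℝ) ≤ max T 1 := le_max_right _ _
  have hE : (0 : ℝ) ≤ max T 1 ^ (1 / ((r₁ + r₂ - 1 : ℕ) : ℝ)) :=
    Real.rpow_nonneg (zero_le_one.trans hT1) _
  have hY : (1 : ℝ) ≤ Real.exp (max 1 H * max T 1 ^ (1 / ((r₁ + r₂ - 1 : ℕ) : ℝ))) :=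
    Real.one_le_exp (mul_nonneg (zero_le_one.trans (le_max_left _ _)) hE)
  refine (hC _ hY).1.subset ?_
  rintro K ⟨inst, h1, h2, hp, hreg⟩
  obtain ⟨hd, hrk⟩ := H38.sig K h1 h2
  refine ⟨inst, hd, ?_⟩
  rcases hF K (max T 1) hT1 hd hrk (hreg.trans (le_max_left _ _)) with ⟨u, hu, hb⟩ | ⟨u, hu, hb⟩
  · refine ⟨u, (hU K hp).2.1 _, hu, H77.bdd_mono hb (Real.exp_le_exp.2 ?_)⟩
    exact mul_le_mul_of_nonneg_right (le_max_left _ _) hE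
  · refine ⟨fun _ => u ⟨0, hr⟩, (hU K hp).2.1 _, H77.indep_single hu _, fun _ σ => ?_⟩
    refine (hb ⟨0, hr⟩ σ).trans (Real.exp_le_exp.2 ?_)
    exact mul_le_mul_of_nonneg_right (le_max_right _ _) hE

theorem ureg_upr (hO : OneConcl) (hU : UnwStmt) (hR : RegConcl) (hC : CntConcl) (r₁ r₂ : ℕ)
    (h3 : 3 ≤ r₁ + r₂) (p : ℕ) [Fact p.Prime] (ε : ℝ) (hε : 0 < ε) : ∃ C : ℝ, ∀ T : ℝ, 0 ≤ T →
    ((UReg r₁ r₂ T ∩ Bad p).ncard : ℝ) ≤ C * Real.exp (ε * T ^ (1 / ((r₁ : ℝ) + r₂ - 1))) := by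
  have hn : 1 < r₁ + 2 * r₂ := by omega
  have hr : 0 < r₁ + r₂ - 1 := by omega
  have hrc : ((r₁ + r₂ - 1 : ℕ) : ℝ) = (r₁ : ℝ) + r₂ - 1 := by
    rw [Nat.cast_sub (by omega)]; push_cast; ring
  obtain ⟨C₁, hC₁⟩ := hO (r₁ + 2 * r₂) hn
  set A : ℝ := max C₁ 1 with hA
  have hA1 : 1 ≤ A := le_max_right _ _
  have hA0 : 0 < A := lt_of_lt_of_le one_pos hA1
  obtain ⟨H, hH0, hH⟩ := hR (r₁ + 2 * r₂) (r₁ + r₂ - 1) hr hn (ε / A) (div_pos hε hA0)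
  obtain ⟨C₂, hC₂⟩ := hC p (r₁ + 2 * r₂) (r₁ + r₂ - 1) (ε / H) (div_pos hε hH0) hr hn
  -- the bound for `T ≥ 1`
  have key : ∀ T : ℝ, 1 ≤ T → (UReg r₁ r₂ T ∩ Bad p).Finite ∧
      ((UReg r₁ r₂ T ∩ Bad p).ncard : ℝ) ≤
        (A + C₂) * Real.exp (ε * T ^ (1 / ((r₁ : ℝ) + r₂ - 1))) := by
    intro T hT
    rw [← hrc]
    set τ : ℝ := T ^ (1 / ((r₁ + r₂ - 1 : ℕ) : ℝ)) with hτ
    have hτ0 : 0 ≤ τ := Real.rpow_nonneg (by linarith) _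
    have hX : 1 ≤ Real.exp (ε / A * τ) :=
      Real.one_le_exp (mul_nonneg (div_pos hε hA0).le hτ0)
    have hY : 1 ≤ Real.exp (H * τ) := Real.one_le_exp (mul_nonneg hH0.le hτ0)
    obtain ⟨f1, b1⟩ := hC₁ _ hX
    obtain ⟨f2, b2⟩ := hC₂ _ hY
    have hsub : UReg r₁ r₂ T ∩ Bad p ⊆ OneNew (r₁ + 2 * r₂) (Real.exp (ε / A * τ)) ∪
        (NewFlds (r₁ + 2 * r₂) (r₁ + r₂ - 1) (Real.exp (H * τ)) ∩ MinBad p) := by
      rintro K ⟨⟨i1, k1, k2, k3, k4⟩, hb⟩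
      obtain ⟨s1, s2⟩ := H38.sig K k1 k2
      rcases hH K T hT s1 s2 k4 with ⟨u, u1, u2⟩ | ⟨u, u1, u2⟩
      · exact Or.inl ⟨i1, s1, u, (hU K k3).2.1 _, u1, u2⟩
      · refine Or.inr ⟨⟨i1, s1, u, (hU K k3).2.2.1 _ u s2 u1, u2⟩, i1, ?_⟩
        obtain ⟨i2, hb⟩ := hb
        exact (hU K k3).2.2.2 p hb
    refine ⟨(f1.union f2).subset hsub, ?_⟩
    have h1 : ((UReg r₁ r₂ T ∩ Bad p).ncard : ℝ) ≤
        ((OneNew (r₁ + 2 * r₂) (Real.exp (ε / A * τ))).ncard : ℝ) +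
        ((NewFlds (r₁ + 2 * r₂) (r₁ + r₂ - 1) (Real.exp (H * τ)) ∩ MinBad p).ncard : ℝ) := by
      have h2 := (Set.ncard_le_ncard hsub (f1.union f2)).trans (Set.ncard_union_le _ _)
      exact_mod_cast h2
    have e1 : C₁ * Real.exp (ε / A * τ) ^ C₁ ≤ A * Real.exp (ε * τ) := by
      have h2 : Real.exp (ε / A * τ) ^ C₁ ≤ Real.exp (ε / A * τ) ^ A :=
        Real.rpow_le_rpow_of_exponent_le hX (le_max_left _ _)
      have h4 : Real.exp (ε / A * τ) ^ A = Real.exp (ε * τ) := by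
        rw [← Real.exp_mul]
        congr 1
        field_simp
      rw [h4] at h2
      have h5 : 0 ≤ Real.exp (ε / A * τ) ^ C₁ := Real.rpow_nonneg (Real.exp_pos _).le _
      calc C₁ * Real.exp (ε / A * τ) ^ C₁ ≤ A * Real.exp (ε / A * τ) ^ C₁ :=
            mul_le_mul_of_nonneg_right (le_max_left _ _) h5
        _ ≤ A * Real.exp (ε * τ) := mul_le_mul_of_nonneg_left h2 hA0.le
    have e2 : Real.exp (H * τ) ^ (ε / H) = Real.exp (ε * τ) := by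
      rw [← Real.exp_mul]
      congr 1
      field_simp
    rw [e2] at b2
    calc ((UReg r₁ r₂ T ∩ Bad p).ncard : ℝ) ≤ _ := h1
      _ ≤ A * Real.exp (ε * τ) + C₂ * Real.exp (ε * τ) := add_le_add (b1.trans e1) b2
      _ = (A + C₂) * Real.exp (ε * τ) := by ring
  refine ⟨|A + C₂| * Real.exp ε, fun T hT => ?_⟩
  have hE : 1 ≤ Real.exp ε := Real.one_le_exp hε.le
  rcases le_total 1 T with h | h
  · refine (key T h).2.trans (mul_le_mul_of_nonneg_right ?_ (Real.exp_pos _).le)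
    calc A + C₂ ≤ |A + C₂| := le_abs_self _
      _ = |A + C₂| * 1 := (mul_one _).symm
      _ ≤ |A + C₂| * Real.exp ε := mul_le_mul_of_nonneg_left hE (abs_nonneg _)
  · obtain ⟨f, b⟩ := key 1 le_rfl
    have hsub : UReg r₁ r₂ T ∩ Bad p ⊆ UReg r₁ r₂ 1 ∩ Bad p := by
      rintro K ⟨⟨i1, k1, k2, k3, k4⟩, hb⟩
      exact ⟨⟨i1, k1, k2, k3, k4.trans h⟩, hb⟩
    have h1 : ((UReg r₁ r₂ T ∩ Bad p).ncard : ℝ) ≤ ((UReg r₁ r₂ 1 ∩ Bad p).ncard : ℝ) := by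
      exact_mod_cast Set.ncard_le_ncard hsub f
    rw [Real.one_rpow, mul_one] at b
    have hE2 : 1 ≤ Real.exp (ε * T ^ (1 / ((r₁ : ℝ) + r₂ - 1))) :=
      Real.one_le_exp (mul_nonneg hε.le (Real.rpow_nonneg hT _))
    calc ((UReg r₁ r₂ T ∩ Bad p).ncard : ℝ) ≤ (A + C₂) * Real.exp ε := h1.trans b
      _ ≤ |A + C₂| * Real.exp ε := mul_le_mul_of_nonneg_right (le_abs_self _) (Real.exp_pos _).le
      _ = |A + C₂| * Real.exp ε * 1 := (mul_one _).symm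
      _ ≤ |A + C₂| * Real.exp ε * Real.exp (ε * T ^ (1 / ((r₁ : ℝ) + r₂ - 1))) :=
          mul_le_mul_of_nonneg_left hE2 (mul_nonneg (abs_nonneg _) (Real.exp_pos _).le)

/-- **URE** -/
theorem ure : UreStmt := fun hO hU hR hC r₁ r₂ h3 =>
  ⟨fun T => ureg_fin hO hU hR r₁ r₂ h3 T, fun p _ ε hε => ureg_upr hO hU hR hC r₁ r₂ h3 p ε hε⟩

end Pool.Agent.LRN.H98
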